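import Mathlib
import Pool.Agent.H845.LocCloneDefs

/-!
# MP_c0a48b_al: the lattice of height three attached to a subset of the plane

For `R ⊆ ℝ × ℝ` there are points `a x`, `b y` (`x, y ∈ ℝ`) and `d`. The flats are the empty set, the
points, the pairs `{a x, b y}` with `(x, y) ∉ R`, and the set of all points. They form a lattice
`Lat R` of cardinality `𝔠` whose chains have at most four elements, and `d ≤ a x ⊔ b y` if and only
if `(x, y) ∈ R`.
-/

set_option autoImplicit false

open scoped Cardinal

namespace Pool.Agent.Run7.h653.RP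

/-- the points -/
abbrev Pt : Type := (ℝ ⊕ ℝ) ⊕ Unit

/-- the point `a x` -/
def pa (x : ℝ) : Pt := Sum.inl (Sum.inl x)

/-- the point `b y` -/
def pb (y : ℝ) : Pt := Sum.inl (Sum.inr y)

/-- the point `d` -/
def pd : Pt := Sum.inr ()

/-- the flats: the sets with at most one point, the pairs `{a x, b y}` with `(x, y) ∉ R`, and the
set of all points -/
def IsFlat (R : Set (ℝ × ℝ)) (S : Set Pt) : Prop :=
  S = Set.univ ∨ S.Subsingleton ∨ ∃ x y, (x, y) ∉ R ∧ S = {pa x, pb y}

/-- the lattice of the flats -/
structure Lat (R : Set (ℝ × ℝ)) where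
  /-- the set of points -/
  pts : Set Pt
  /-- it is a flat -/
  flat : IsFlat R pts

namespace Lat

variable {R : Set (ℝ × ℝ)}

theorem ext' {u v : Lat R} (h : u.pts = v.pts) : u = v := by
  cases u
  cases v
  cases h
  rfl

instance : PartialOrder (Lat R) where
  le u v := u.pts ⊆ v.pts
  le_refl u := Set.Subset.rfl
  le_trans u v w h1 h2 := Set.Subset.trans h1 h2
  le_antisymm u v h1 h2 := ext' (Set.Subset.antisymm h1 h2)

theorem le_iff {u v : Lat R} : u ≤ v ↔ u.pts ⊆ v.pts := Iff.rfl

theorem isFlat_subset {S T : Set Pt} (hT : IsFlat R T) (h : S ⊆ T) (hne : T ≠ Set.univ) :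
    IsFlat R S := by
  rcases hT with h1 | h1 | ⟨x, y, hxy, rfl⟩
  · exact absurd h1 hne
  · exact Or.inr (Or.inl (h1.anti h))
  · by_cases hx : pa x ∈ S
    · by_cases hy : pb y ∈ S
      · refine Or.inr (Or.inr ⟨x, y, hxy, Set.Subset.antisymm h ?_⟩)
        rintro z (rfl | rfl)
        · exact hx
        · exact hy
      · refine Or.inr (Or.inl ?_)
        have : S ⊆ {pa x} := by
          intro z hz
          rcases h hz with rfl | rfl
          · exact Set.mem_singleton _
          · exact absurd hz hy
        exact Set.subsingleton_singleton.anti this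
    · refine Or.inr (Or.inl ?_)
      have : S ⊆ {pb y} := by
        intro z hz
        rcases h hz with rfl | rfl
        · exact absurd hz hx
        · exact Set.mem_singleton _
      exact Set.subsingleton_singleton.anti this

theorem isFlat_sInter (F : Set (Lat R)) : IsFlat R (⋂ u ∈ F, Lat.pts u) := by
  by_cases h : ∃ u ∈ F, Lat.pts u ≠ Set.univ
  · obtain ⟨u, hu, hne⟩ := h
    exact isFlat_subset u.flat (Set.biInter_subset_of_mem hu) hne
  · left
    rw [Set.eq_univ_iff_forall]
    intro z
    rw [Set.mem_iInter₂]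
    intro u hu
    by_contra hz
    exact h ⟨u, hu, fun h1 => hz (h1 ▸ Set.mem_univ z)⟩

instance : InfSet (Lat R) := ⟨fun F => ⟨⋂ u ∈ F, Lat.pts u, isFlat_sInter F⟩⟩

instance : CompleteLattice (Lat R) :=
  completeLatticeOfInf (Lat R) (by
    intro F
    refine ⟨fun u hu => Set.biInter_subset_of_mem hu, fun v hv => ?_⟩
    exact Set.subset_iInter₂ fun u hu => hv hu)

/-- the flat of a point -/
def pt (R : Set (ℝ × ℝ)) (z : Pt) : Lat R := ⟨{z}, Or.inr (Or.inl Set.subsingleton_singleton)⟩

/-- the flat of all points -/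
def full (R : Set (ℝ × ℝ)) : Lat R := ⟨Set.univ, Or.inl rfl⟩

theorem pt_le {z : Pt} {u : Lat R} : pt R z ≤ u ↔ z ∈ u.pts := by
  rw [le_iff]
  exact Set.singleton_subset_iff

theorem pt_injective : Function.Injective (pt R) := by
  intro z w h
  have : z ∈ (pt R w).pts := pt_le.1 h.le
  exact this

theorem pa_ne_pb (x y : ℝ) : pa x ≠ pb y := by
  unfold pa pb
  simp

theorem pa_inj {x y : ℝ} (h : pa x = pa y) : x = y := by
  unfold pa at h
  simpa using h

theorem pb_inj {x y : ℝ} (h : pb x = pb y) : x = y := by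
  unfold pb at h
  simpa using h

theorem pd_ne_pa (x : ℝ) : pd ≠ pa x := by
  unfold pd pa
  simp

theorem pd_ne_pb (x : ℝ) : pd ≠ pb x := by
  unfold pd pb
  simp

/-- the point `d` is below the join of `a x` and `b y` if and only if `(x, y) ∈ R` -/
theorem pd_le_iff (x y : ℝ) : pt R pd ≤ pt R (pa x) ⊔ pt R (pb y) ↔ (x, y) ∈ R := by
  constructor
  · intro h
    by_contra hxy
    let u : Lat R := ⟨{pa x, pb y}, Or.inr (Or.inr ⟨x, y, hxy, rfl⟩)⟩
    have h1 : pt R (pa x) ⊔ pt R (pb y) ≤ u :=
      sup_le (pt_le.2 (Or.inl rfl)) (pt_le.2 (Or.inr rfl))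
    have h2 : pd ∈ u.pts := pt_le.1 (h.trans h1)
    rcases h2 with h2 | h2
    · exact pd_ne_pa x h2
    · exact pd_ne_pb y h2
  · intro hxy
    set v := pt R (pa x) ⊔ pt R (pb y) with hv
    have h1 : pa x ∈ v.pts := pt_le.1 le_sup_left
    have h2 : pb y ∈ v.pts := pt_le.1 le_sup_right
    rw [pt_le]
    rcases v.flat with h3 | h3 | ⟨x', y', h4, h5⟩
    · rw [h3]
      exact Set.mem_univ _
    · exact absurd (h3 h1 h2) (pa_ne_pb x y)
    · exfalso
      rw [h5] at h1 h2
      have e1 : x = x' := by
        rcases h1 with h1 | h1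
        · exact pa_inj h1
        · exact absurd h1 (pa_ne_pb x y')
      have e2 : y = y' := by
        rcases h2 with h2 | h2
        · exact absurd h2.symm (pa_ne_pb x' y)
        · exact pb_inj h2
      subst e1
      subst e2
      exact h4 hxy

/-- the flats which are different from the set of all points have at most two points -/
theorem small {u : Lat R} (h : u.pts ≠ Set.univ) : u.pts.Finite ∧ u.pts.ncard ≤ 2 := by
  rcases u.flat with h1 | h1 | ⟨x, y, -, h5⟩
  · exact absurd h1 h
  · refine ⟨h1.finite, ?_⟩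
    have hf : Finite u.pts := h1.finite
    have := Set.ncard_le_one_iff_subsingleton.2 h1
    omega
  · rw [h5]
    refine ⟨Set.toFinite _, ?_⟩
    refine (Set.ncard_insert_le _ _).trans ?_
    rw [Set.ncard_singleton]

open Classical in
/-- the rank of a flat -/
noncomputable def rk (u : Lat R) : ℕ := if u.pts = Set.univ then 3 else u.pts.ncard

theorem rk_le (u : Lat R) : rk u ≤ 3 := by
  unfold rk
  split_ifs with h
  · exact le_rfl
  · have := (small h).2
    omega

theorem rk_lt {u v : Lat R} (h : u < v) : rk u < rk v := by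
  have h1 : u.pts ⊂ v.pts := ⟨h.1, h.2⟩
  have hu : u.pts ≠ Set.univ := by
    intro h2
    exact h1.2 (h2 ▸ Set.subset_univ _)
  unfold rk
  rw [if_neg hu]
  have h2 := (small hu).2
  split_ifs with h3
  · omega
  · exact Set.ncard_lt_ncard h1 (small h3).1

/-- the chains have at most four elements -/
theorem chain_le (s : Set (Lat R)) (hs : IsChain (· ≤ ·) s) : s.encard ≤ 4 := by
  have hinj : Set.InjOn rk s := by
    intro u hu v hv h
    by_contra hne
    rcases hs hu hv hne with h1 | h1
    · exact (rk_lt (lt_of_le_of_ne h1 hne)).ne h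
    · exact (rk_lt (lt_of_le_of_ne h1 (Ne.symm hne))).ne h.symm
  rw [← hinj.encard_image]
  have h1 : rk '' s ⊆ ((Finset.range 4 : Finset ℕ) : Set ℕ) := by
    rintro _ ⟨u, -, rfl⟩
    rw [Finset.coe_range, Set.mem_Iio]
    have := rk_le u
    omega
  refine (Set.encard_le_encard h1).trans ?_
  rw [Set.encard_coe_eq_coe_finsetCard, Finset.card_range]
  exact le_rfl

theorem mk_pt : #Pt = 𝔠 := by
  have h : #Pt = (𝔠 + 𝔠) + 1 := by
    unfold Pt
    rw [Cardinal.mk_sum, Cardinal.mk_sum, Cardinal.mk_real, Cardinal.mk_unit]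
    simp
  rw [h, Cardinal.add_eq_self Cardinal.aleph0_le_continuum]
  exact Cardinal.add_one_eq Cardinal.aleph0_le_continuum

open Classical in
/-- the flats are given by at most two points -/
noncomputable def code (R : Set (ℝ × ℝ)) : Option (Option (Pt × Pt)) → Lat R
  | none => full R
  | some none => ⟨∅, Or.inr (Or.inl Set.subsingleton_empty)⟩
  | some (some p) => if h : IsFlat R {p.1, p.2} then ⟨{p.1, p.2}, h⟩ else full R

theorem code_surjective : Function.Surjective (code R) := by
  intro u
  rcases u.flat with h1 | h1 | ⟨x, y, hxy, h5⟩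
  · exact ⟨none, ext' h1.symm⟩
  · rcases h1.eq_empty_or_singleton with h2 | ⟨z, h2⟩
    · exact ⟨some none, ext' h2.symm⟩
    · refine ⟨some (some (z, z)), ?_⟩
      have h3 : ({z, z} : Set Pt) = {z} := Set.pair_eq_singleton z
      have h4 : IsFlat R {z, z} := by
        rw [h3]
        exact Or.inr (Or.inl Set.subsingleton_singleton)
      unfold code
      simp only
      rw [dif_pos h4]
      exact ext' (h3.trans h2.symm)
  · refine ⟨some (some (pa x, pb y)), ?_⟩
    have h4 : IsFlat R {pa x, pb y} := Or.inr (Or.inr ⟨x, y, hxy, rfl⟩)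
    unfold code
    simp only
    rw [dif_pos h4]
    exact ext' h5.symm

theorem mk_lat : #(Lat R) = 𝔠 := by
  apply le_antisymm
  · refine (Cardinal.mk_le_of_surjective code_surjective).trans ?_
    rw [Cardinal.mk_option, Cardinal.mk_option, Cardinal.mk_prod, mk_pt]
    simp only [Cardinal.lift_id]
    rw [Cardinal.mul_eq_self Cardinal.aleph0_le_continuum,
      Cardinal.add_one_eq Cardinal.aleph0_le_continuum,
      Cardinal.add_one_eq Cardinal.aleph0_le_continuum]
  · rw [← mk_pt]
    exact Cardinal.mk_le_of_injective pt_injective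

end Lat

end Pool.Agent.Run7.h653.RP
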