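import Mathlib
import Pool.Agent.H845.LocCloneDefs
import Pool.Agent.Run7.h653.RP.Lat

/-!
# MP_c0a48b_al: join relations of local clones are countable intersections of countable unions of
rectangles
-/

set_option autoImplicit false

open scoped Cardinal
open Pool.H845.LocClone

namespace Pool.Agent.Run7.h653.RP

/-- the pieces are countable -/
instance : Countable Piece := by
  unfold Piece
  infer_instance

/-- `R` is a countable intersection of countable unions of rectangles -/
def IsRect {α β : Type} (R : Set (α × β)) : Prop :=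
  ∃ A : ℕ → ℕ → Set α, ∃ B : ℕ → ℕ → Set β, R = ⋂ i, ⋃ j, A i j ×ˢ B i j

/-- the join relation between a fixed clone and the members of two families -/
theorem rect_of_clones {α β : Type} (C : α → Ops) (D : β → Ops) (J : α → β → Ops) (E : Ops)
    (hJ : ∀ x y, IsLocalClone (J x y))
    (hC : ∀ x y, C x ≤ J x y) (hD : ∀ x y, D y ≤ J x y)
    (hlub : ∀ x y, ∀ F : Ops, IsLocalClone F → C x ≤ F → D y ≤ F → J x y ≤ F) :
    IsRect {p : α × β | E ≤ J p.1 p.2} := by
  classical
  obtain ⟨g, hg⟩ := exists_surjective_nat Piece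
  obtain ⟨k, hk⟩ := exists_surjective_nat (Finset Piece × Finset Piece)
  refine ⟨fun i j => {x | g i ∈ W E → (↑(k j).1 ⊆ W (C x) ∧ Forces (k j) (g i))},
    fun i j => {y | g i ∈ W E → (↑(k j).2 ⊆ W (D y))}, ?_⟩
  ext ⟨x, y⟩
  simp only [Set.mem_ofPred_eq, Set.mem_iInter, Set.mem_iUnion, Set.mem_prod]
  constructor
  · intro h i
    by_cases hi : g i ∈ W E
    · obtain ⟨FG, h1, h2, h3⟩ := join_finitary (hlub x y) (W_mono h hi)
      obtain ⟨j, rfl⟩ := hk FG
      exact ⟨j, fun _ => ⟨h1, h3⟩, fun _ => h2⟩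
    · exact ⟨0, fun h => absurd h hi, fun h => absurd h hi⟩
  · intro h
    refine le_of_W (hJ x y) ?_
    intro p hp
    obtain ⟨i, rfl⟩ := hg p
    obtain ⟨j, h1, h2⟩ := h i
    obtain ⟨h1, h3⟩ := h1 hp
    exact h3 (J x y) (hJ x y) (h1.trans (W_mono (hC x y))) ((h2 hp).trans (W_mono (hD x y)))

/-- if the lattice `Lat R` has a join embedding, then `R` is a countable intersection of countable
unions of rectangles -/
theorem rect_of_embedding (R : Set (ℝ × ℝ)) (f : Lat R → Ops) (hf : IsJoinEmbedding f) :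
    IsRect R := by
  obtain ⟨hinj, hcl, hub, hlub⟩ := hf
  have hle : ∀ u v : Lat R, f u ≤ f v ↔ u ≤ v := by
    intro u v
    constructor
    · intro h
      have h1 : f (u ⊔ v) = f v := le_antisymm (hlub u v (f v) (hcl v) h le_rfl) (hub u v).2
      have h2 : u ⊔ v = v := hinj h1
      exact sup_eq_right.1 h2
    · intro h
      have h2 : u ⊔ v = v := sup_eq_right.2 h
      have h3 := (hub u v).1
      rwa [h2] at h3
  have h := rect_of_clones (fun x : ℝ => f (Lat.pt R (pa x))) (fun y : ℝ => f (Lat.pt R (pb y)))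
    (fun x y => f (Lat.pt R (pa x) ⊔ Lat.pt R (pb y))) (f (Lat.pt R pd))
    (fun x y => hcl _) (fun x y => (hub _ _).1) (fun x y => (hub _ _).2)
    (fun x y F hF h1 h2 => hlub _ _ F hF h1 h2)
  have e : {p : ℝ × ℝ | f (Lat.pt R pd) ≤ f (Lat.pt R (pa p.1) ⊔ Lat.pt R (pb p.2))} = R := by
    ext ⟨x, y⟩
    rw [Set.mem_ofPred_eq, hle]
    exact Lat.pd_le_iff x y
  rwa [e] at h

/-- transfer to types of cardinality at most `𝔠` -/
theorem isRect_preimage {α β α' β' : Type} (u : α → α') (v : β → β') {R : Set (α' × β')}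
    (h : IsRect R) : IsRect {p : α × β | (u p.1, v p.2) ∈ R} := by
  obtain ⟨A, B, rfl⟩ := h
  refine ⟨fun i j => u ⁻¹' A i j, fun i j => v ⁻¹' B i j, ?_⟩
  ext ⟨x, y⟩
  simp only [Set.mem_ofPred_eq, Set.mem_iInter, Set.mem_iUnion, Set.mem_prod, Set.mem_preimage]

end Pool.Agent.Run7.h653.RP
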