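import Mathlib
import Pool.Agent.Run7.h653.RP.Rect

/-!
# MP_c0a48b_al: a total measure on the reals and rectangles
-/

set_option autoImplicit false

open scoped Cardinal ENNReal
open MeasureTheory

namespace Pool.Agent.Run7.h653.RP

/-- if all subsets of `α` are measurable, then countable intersections of countable unions of
rectangles are measurable -/
theorem IsRect.measurableSet {α : Type} [MeasurableSpace α] (h : ∀ s : Set α, MeasurableSet s)
    {R : Set (α × α)} (hR : IsRect R) : MeasurableSet R := by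
  obtain ⟨A, B, rfl⟩ := hR
  exact MeasurableSet.iInter fun i => MeasurableSet.iUnion fun j => (h _).prod (h _)

/-- the theorem of Fubini for a relation with small sections on one side, and large sections on the
other side -/
theorem fubini {α : Type} [MeasurableSpace α] (μ : Measure α) [IsFiniteMeasure μ]
    (X : Set α) (hXm : MeasurableSet X) (hX : μ X ≠ 0) (R : Set (α × α)) (hR : MeasurableSet R)
    (h1 : ∀ y, μ {x | (x, y) ∈ R} = 0) (h2 : ∀ x ∈ X, μ {y | (x, y) ∈ R} = μ X) : False := by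
  have e1 : (μ.prod μ) R = 0 := by
    rw [Measure.prod_apply_symm hR]
    have : ∀ y, μ ((fun x => (x, y)) ⁻¹' R) = 0 := h1
    simp only [this]
    exact lintegral_zero
  rw [Measure.prod_apply hR] at e1
  have h3 : ∫⁻ _ in X, μ X ∂μ ≤ ∫⁻ x, μ (Prod.mk x ⁻¹' R) ∂μ := by
    refine le_trans ?_ (setLIntegral_le_lintegral X _)
    refine setLIntegral_mono' hXm ?_
    intro x hx
    have h4 : μ (Prod.mk x ⁻¹' R) = μ X := h2 x hx
    rw [h4]
  rw [e1, setLIntegral_const] at h3
  have h5 : μ X * μ X = 0 := le_antisymm h3 bot_le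
  exact hX (mul_self_eq_zero.1 h5)

/-- if there is a total finite measure on `α` which is not zero and vanishes at the points, then
some subset of the square is not a countable intersection of countable unions of rectangles -/
theorem not_rect {α : Type} [MeasurableSpace α] (h : ∀ s : Set α, MeasurableSet s)
    (μ : Measure α) [IsFiniteMeasure μ] (h0 : μ Set.univ ≠ 0) (hp : ∀ x, μ {x} = 0) :
    ∃ R : Set (α × α), ¬ IsRect R := by
  classical
  -- a set of positive measure of the least cardinality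
  have hne : {κ : Cardinal.{0} | ∃ X : Set α, μ X ≠ 0 ∧ #X = κ}.Nonempty :=
    ⟨_, Set.univ, h0, rfl⟩
  obtain ⟨X, hX, hκ⟩ := csInf_mem hne
  have hmin : ∀ Y : Set α, #Y < #X → μ Y = 0 := by
    intro Y hY
    by_contra hY0
    have h1 : sInf {κ : Cardinal.{0} | ∃ X : Set α, μ X ≠ 0 ∧ #X = κ} ≤ #Y :=
      csInf_le' ⟨Y, hY0, rfl⟩
    rw [← hκ] at h1
    exact absurd hY (not_lt.2 h1)
  obtain ⟨r, hr, ho⟩ := Cardinal.exists_ord_eq X
  let R : Set (α × α) := {p | ∃ (hx : p.1 ∈ X) (hy : p.2 ∈ X), r ⟨p.1, hx⟩ ⟨p.2, hy⟩}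
  have hseg : ∀ y : X, μ {x | ∃ hx : x ∈ X, r ⟨x, hx⟩ y} = 0 := by
    intro y
    apply hmin
    have h1 : (Ordinal.typein r y).card < #X := Cardinal.card_typein_lt (r := r) y ho
    rw [Ordinal.card_typein] at h1
    refine lt_of_le_of_lt ?_ h1
    refine Cardinal.mk_le_of_injective (f := fun x : {x | ∃ hx : x ∈ X, r ⟨x, hx⟩ y} =>
      (⟨⟨x.1, x.2.1⟩, x.2.2⟩ : {z : X // r z y})) ?_
    intro a b hab
    have h3 : (⟨a.1, a.2.1⟩ : X) = ⟨b.1, b.2.1⟩ := congrArg Subtype.val hab
    exact Subtype.ext (Subtype.mk_eq_mk.1 h3)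
  refine ⟨R, fun hR => fubini μ X (h X) hX R (hR.measurableSet h) ?_ ?_⟩
  · intro y
    by_cases hy : y ∈ X
    · have e : {x | (x, y) ∈ R} ⊆ {x | ∃ hx : x ∈ X, r ⟨x, hx⟩ ⟨y, hy⟩} := by
        rintro x ⟨hx, hy', hr'⟩
        exact ⟨hx, hr'⟩
      exact measure_mono_null e (hseg ⟨y, hy⟩)
    · have e : {x | (x, y) ∈ R} = ∅ := by
        ext x
        constructor
        · rintro ⟨hx, hy', hr'⟩
          exact absurd hy' hy
        · intro hx
          exact absurd hx (Set.notMem_empty x)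
      rw [e, measure_empty]
  · intro x hx
    have e1 : {y | (x, y) ∈ R} ⊆ X := by
      rintro y ⟨hx', hy, hr'⟩
      exact hy
    have e2 : X ⊆ {y | (x, y) ∈ R} ∪ ({y | ∃ hy : y ∈ X, r ⟨y, hy⟩ ⟨x, hx⟩} ∪ {x}) := by
      intro y hy
      rcases trichotomous_of r ⟨x, hx⟩ ⟨y, hy⟩ with h1 | h1 | h1
      · exact Or.inl ⟨hx, hy, h1⟩
      · exact Or.inr (Or.inr (congrArg Subtype.val h1).symm)
      · exact Or.inr (Or.inl ⟨hy, h1⟩)
    refine le_antisymm (measure_mono e1) ?_
    refine (measure_mono e2).trans ?_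
    refine (measure_union_le _ _).trans ?_
    have e3 : μ ({y | ∃ hy : y ∈ X, r ⟨y, hy⟩ ⟨x, hx⟩} ∪ {x}) = 0 :=
      measure_union_null (hseg ⟨x, hx⟩) (hp x)
    rw [e3, add_zero]

end Pool.Agent.Run7.h653.RP
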